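import Pool.Agent.LibHit3.Main

set_option autoImplicit false

/-!
Infinitesimal simple closed curve rigidity for the Hitchin components in genus two: a spanning
collection of differentiable conjugation invariant functions on `PSL(n, ℝ)` exists for `n = 3`
(the trace alone will do) and for no `n ≥ 4`.

`Surf` is the fundamental group of the closed orientable surface of genus two, `Hit n ρ₀` the
connected component, in the character variety `Hom(π₁(S), PSL(n, ℝ)) / PSL(n, ℝ)`, of the
composition `irr n ρ₀` of the Fuchsian representation `ρ₀` with the irreducible representation.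

For `n = 3`: a positivity condition on octagons of flags is open and closed, so all
representations in the component are positive; then a cocycle killed by the traces of all simple
curves is a coboundary on each of the two handles (traces of words in dual numbers), hence a twist
along the separating curve, and the traces of simple curves crossing it two and four times kill
the twist. For `n ≥ 4` the hyperelliptic involution is an obstruction.
-/

namespace Pool.Agent.Results.MP_1d68f0_gt.HitchinQ1

open Pool.Agent.LibHyperelliptic Pool.Agent.LibHit3

/-- For genus two and `n ≥ 3` there is a spanning collection of differentiable conjugation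
invariant functions on the Hitchin component if and only if `n = 3`. For `n = 3` the trace alone
is spanning, for `n ≥ 4` every collection fails to be spanning at every Fuchsian point. -/
theorem result :
    (∃ ρ₀ : SLRep 2, IsFuchsian ρ₀ ∧ SpanningOn {trFun} (Hit 3 ρ₀) ∧
      ∀ n : ℕ, 3 ≤ n → ((∃ F : Set (InvFun n), SpanningOn F (Hit n ρ₀)) ↔ n = 3)) ∧
    ∀ n : ℕ, 4 ≤ n → ∀ ρ₀ : SLRep 2, IsFuchsian ρ₀ → ∀ F : Set (InvFun n),
      ¬ SpansAt F (irr n ρ₀) ∧ ¬ SpanningOn F (Hit n ρ₀) := by
  refine ⟨⟨hexRho, hexRho_fuchsian, spanning_hit_three, fun n hn => ⟨?_, ?_⟩⟩,
    fun n hn ρ₀ h F => ⟨not_spansAt hn h F, not_spanningOn hn h F⟩⟩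
  · rintro ⟨F, hF⟩
    by_contra h3
    exact not_spanningOn (by omega) hexRho_fuchsian F hF
  · rintro rfl
    exact ⟨{trFun}, spanning_hit_three⟩

end Pool.Agent.Results.MP_1d68f0_gt.HitchinQ1
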