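import Pool.Agent.LibHyperelliptic.SLCharVar
import Pool.Agent.LibHyperelliptic.Discrete

set_option autoImplicit false

/-!
The general statement of Q2 is false: for `G = SLₙ`, `n ≥ 4`, and the closed orientable surface
`S` of genus two, there is an absolutely irreducible representation `ρ` such that no
collection of differentiable conjugation invariant functions on `SL(n, ℝ)` is spanning on
the connected component of the class of `ρ` in `Ω / SL(n, ℝ)`, whatever the set `Ω` of
representations containing `ρ` (such as the set `AbsIrr n` of absolutely irreducible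
representations, whose quotient is a smooth manifold).
-/

namespace Pool.Agent.Results.MP_1d68f0_gt.SmoothPartSL

open Pool.Agent.LibHyperelliptic
open Pool.Agent.LibHyperelliptic.SLn

/-- For `G = SLₙ`, `n ≥ 4`, and genus two, no collection of differentiable conjugation
invariant functions is spanning on the component of the smooth part of the
`SL(n, ℝ)`-character variety which contains the class of `ρ`. -/
theorem result (n : ℕ) (hn : 4 ≤ n) :
    ∃ ρ : Rep n, ρ ∈ AbsIrr n ∧ ∀ (Ω : Set (Rep n)) (hΩ : ρ ∈ Ω) (F : Set (SLn.InvFun n)),
      ¬ SLn.SpanningOn F (component (⟨ρ, hΩ⟩ : Ω)) :=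
  ⟨(symSL n).comp hexRho, comp_mem_absIrr n hexRho_inj,
    fun _ hΩ F => SLn.not_spanningOn hn hexRho_inj hΩ F⟩

end Pool.Agent.Results.MP_1d68f0_gt.SmoothPartSL
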